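import Pool.Agent.X23.L3.Stm2

/-! Part LT_IRR for MP_688354_co. -/

set_option autoImplicit false

namespace Pool.Agent.X69.LT

open Pool.Agent.X23.FR Pool.Agent.X23.L3

theorem dot_self_pos {a : Fin 3 → ℝ} (h : a ≠ 0) : 0 < a ⬝ᵥ a := by
  have h6 : a ⬝ᵥ a ≠ 0 := fun h' => h (dotProduct_self_eq_zero.1 h')
  have h7 : 0 ≤ a ⬝ᵥ a := by
    unfold dotProduct
    exact Finset.sum_nonneg fun i _ => mul_self_nonneg _
  exact lt_of_le_of_ne h7 h6.symm

theorem t_IRR : S_IRR := by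
  classical
  intro P hP
  obtain ⟨⟨H0, hH0⟩, hbd, hint, -⟩ := hP
  have hex : ∃ k, ∃ H : Finset ((Fin 3 → ℝ) × ℝ), H.card = k ∧
      P = {x | ∀ h ∈ H, h.1 ⬝ᵥ x ≤ h.2} := ⟨_, H0, rfl, hH0⟩
  obtain ⟨H, hHc, hHP⟩ := Nat.find_spec hex
  have hmin : ∀ H' : Finset ((Fin 3 → ℝ) × ℝ), P = {x | ∀ h ∈ H', h.1 ⬝ᵥ x ≤ h.2} →
      H.card ≤ H'.card := fun H' h' => by
    rw [hHc]
    exact Nat.find_min' hex ⟨H', rfl, h'⟩
  clear hHc
  have hint0 := hint
  obtain ⟨o, ho⟩ := hint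
  have hirr : ∀ h ∈ H, ∃ z, (∀ h' ∈ H, h' ≠ h → h'.1 ⬝ᵥ z ≤ h'.2) ∧ h.2 < h.1 ⬝ᵥ z := by
    intro h hh
    by_contra hcon
    push Not at hcon
    have h1 : P = {x | ∀ h' ∈ H.erase h, h'.1 ⬝ᵥ x ≤ h'.2} := by
      rw [hHP]
      ext x
      constructor
      · intro hx h' hh'
        exact hx h' (Finset.mem_of_mem_erase hh')
      · intro hx h' hh'
        by_cases he : h' = h
        · subst he
          exact hcon x (fun g hg hne => hx g (Finset.mem_erase.2 ⟨hne, hg⟩))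
        · exact hx h' (Finset.mem_erase.2 ⟨he, hh'⟩)
    have h2 := hmin _ h1
    rw [Finset.card_erase_of_mem hh] at h2
    have h3 := Finset.card_pos.2 ⟨h, hh⟩
    omega
  have hoP : o ∈ P := interior_subset ho
  have hne : ∀ h ∈ H, h.1 ≠ 0 := by
    intro h hh h0
    obtain ⟨z, -, hz⟩ := hirr h hh
    rw [h0, zero_dotProduct] at hz
    have h1 := hoP
    rw [hHP] at h1
    have h2 := h1 h hh
    rw [h0, zero_dotProduct] at h2
    linarith
  have hos : ∀ h ∈ H, h.1 ⬝ᵥ o < h.2 := by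
    intro h hh
    obtain ⟨t, ht, ht2⟩ := push ho h.1
    rw [hHP] at ht2
    have h1 := ht2 h hh
    rw [dotProduct_add, dotProduct_smul, smul_eq_mul] at h1
    have h5 := dot_self_pos (hne h hh)
    nlinarith [mul_pos ht h5]
  have hy : ∀ h ∈ H, ∃ y, h.1 ⬝ᵥ y = h.2 ∧ ∀ h' ∈ H, h' ≠ h → h'.1 ⬝ᵥ y < h'.2 := by
    intro h hh
    obtain ⟨z, hz1, hz2⟩ := hirr h hh
    have hd : 0 < h.1 ⬝ᵥ z - h.1 ⬝ᵥ o := by linarith [hos h hh]
    obtain ⟨t, htd⟩ : ∃ t, t = (h.2 - h.1 ⬝ᵥ o) / (h.1 ⬝ᵥ z - h.1 ⬝ᵥ o) := ⟨_, rfl⟩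
    have ht0 : 0 < t := by
      rw [htd]
      exact div_pos (by linarith [hos h hh]) hd
    have ht1 : t < 1 := by
      rw [htd, div_lt_one hd]
      linarith
    have hte : t * (h.1 ⬝ᵥ z - h.1 ⬝ᵥ o) = h.2 - h.1 ⬝ᵥ o := by
      rw [htd]
      exact div_mul_cancel₀ _ hd.ne'
    have e : ∀ v : Fin 3 → ℝ, v ⬝ᵥ (o + t • (z - o)) = (1 - t) * (v ⬝ᵥ o) + t * (v ⬝ᵥ z) := by
      intro v
      rw [dotProduct_add, dotProduct_smul, dotProduct_sub, smul_eq_mul]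
      ring
    refine ⟨o + t • (z - o), ?_, ?_⟩
    · rw [e]
      linarith
    · intro h' hh' hne'
      rw [e]
      nlinarith [mul_pos (sub_pos.2 ht1) (sub_pos.2 (hos h' hh')),
        mul_nonneg ht0.le (sub_nonneg.2 (hz1 h' hh' hne'))]
  choose! Y hY1 hY2 using hy
  obtain ⟨e⟩ : Nonempty (H ≃ Fin H.card) := ⟨H.equivFin⟩
  have hmem : ∀ i, (e.symm i).1 ∈ H := fun i => (e.symm i).2
  have hPdef : P = {x | ∀ i : Fin H.card, (e.symm i).1.1 ⬝ᵥ x ≤ (e.symm i).1.2} := by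
    rw [hHP]
    ext x
    constructor
    · intro hx i
      exact hx _ (hmem i)
    · intro hx h hh
      have := hx (e ⟨h, hh⟩)
      rw [Equiv.symm_apply_apply] at this
      exact this
  have hlt : ∀ i j : Fin H.card, j ≠ i →
      (e.symm j).1.1 ⬝ᵥ Y (e.symm i).1 < (e.symm j).1.2 := fun i j hji =>
    hY2 _ (hmem i) _ (hmem j) (fun h => hji (e.symm.injective (Subtype.ext h)))
  have heq : ∀ i : Fin H.card, (e.symm i).1.1 ⬝ᵥ Y (e.symm i).1 = (e.symm i).1.2 := fun i =>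
    hY1 _ (hmem i)
  refine ⟨H.card, ⟨fun i => (e.symm i).1.1, fun i => (e.symm i).1.2, o,
    fun i => Y (e.symm i).1, fun i => hos _ (hmem i), heq, hlt, ?_⟩, hPdef, ?_, ?_⟩
  · obtain ⟨C, hC⟩ := hbd.exists_norm_le
    refine ⟨C, fun x hx k => ?_⟩
    have h1 : x ∈ P := by
      rw [hPdef]
      exact hx
    have h2 := norm_le_pi_norm x k
    rw [Real.norm_eq_abs] at h2
    exact h2.trans (hC x h1)
  · have hset : {F | IsFacet 3 P F} = Set.range (fun i : Fin H.card =>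
        {x | x ∈ P ∧ (e.symm i).1.1 ⬝ᵥ x = (e.symm i).1.2}) := by
      apply Set.Subset.antisymm
      · exact facets_sub (by norm_num) hPdef hint0
      · rintro F ⟨i, rfl⟩
        exact facet_of (a := fun i : Fin H.card => (e.symm i).1.1)
          (b := fun i : Fin H.card => (e.symm i).1.2) hPdef (hne _ (hmem i)) (heq i) (hlt i)
    unfold facetNum
    rw [hset, ← Set.image_univ, Set.ncard_image_of_injective, Set.ncard_univ,
      Nat.card_eq_fintype_card, Fintype.card_fin]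
    intro i j hij
    by_contra hne'
    have h1 : Y (e.symm i).1 ∈ {x | x ∈ P ∧ (e.symm i).1.1 ⬝ᵥ x = (e.symm i).1.2} := by
      refine ⟨?_, heq i⟩
      rw [hPdef]
      intro k
      by_cases hk : k = i
      · rw [hk, heq i]
      · exact (hlt i k hk).le
    have hij' : {x | x ∈ P ∧ (e.symm i).1.1 ⬝ᵥ x = (e.symm i).1.2} =
        {x | x ∈ P ∧ (e.symm j).1.1 ⬝ᵥ x = (e.symm j).1.2} := hij
    rw [hij'] at h1
    exact absurd h1.2 (hlt i j (fun h => hne' h.symm)).ne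
  · intro F hF
    exact facet_eq (a := fun i : Fin H.card => (e.symm i).1.1)
      (b := fun i : Fin H.card => (e.symm i).1.2) (by norm_num) hPdef hint0 hF

end Pool.Agent.X69.LT
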